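import Mathlib

/-!
Project LS (helper7), job DFN: relations in abstract filtered groups.
-/

set_option autoImplicit false

namespace Pool.Agent.Q173.LS

open Filter Topology Finset

section A

variable (p : ℕ) [Fact p.Prime] {G : Type*} [CommGroup G] (U : ℕ → Subgroup G) {ι : Type*} [Fintype ι]

/-- `a` is a relation of the `x i` for the filtration `U` -/
def RelG (x : ι → G) (a : ι → ℤ_[p]) : Prop :=
  ∃ m : ℕ → ι → ℤ, (∀ i, Tendsto (fun k => ((m k i : ℤ) : ℤ_[p])) atTop (𝓝 (a i))) ∧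
    ∀ N : ℕ, ∀ᶠ k in atTop, ∏ i, x i ^ m k i ∈ U N

variable {p U}

theorem relG_zero (x : ι → G) : RelG p U x 0 := by
  refine ⟨fun _ => 0, fun i => ?_, fun N => Eventually.of_forall fun k => ?_⟩
  · simp
  · simp only [Pi.zero_apply, zpow_zero, Finset.prod_const_one]
    exact (U N).one_mem

theorem relG_add {x : ι → G} {a b : ι → ℤ_[p]} (ha : RelG p U x a) (hb : RelG p U x b) :
    RelG p U x (a + b) := by
  obtain ⟨m, hm, hm2⟩ := ha
  obtain ⟨m', hm', hm2'⟩ := hb
  refine ⟨fun k i => m k i + m' k i, fun i => ?_, fun N => ?_⟩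
  · have := (hm i).add (hm' i)
    refine this.congr fun k => ?_
    push_cast
    rfl
  · filter_upwards [hm2 N, hm2' N] with k h1 h2
    have e : ∏ i, x i ^ (m k i + m' k i) = (∏ i, x i ^ m k i) * ∏ i, x i ^ m' k i := by
      rw [← Finset.prod_mul_distrib]
      exact Finset.prod_congr rfl fun i _ => zpow_add _ _ _
    rw [e]
    exact (U N).mul_mem h1 h2

theorem exists_nat_tendsto (c : ℤ_[p]) : ∃ u : ℕ → ℕ, Tendsto (fun k => ((u k : ℕ) : ℤ_[p])) atTop
    (𝓝 c) := by
  have h : ∀ k : ℕ, ∃ u : ℕ, dist c ((u : ℕ) : ℤ_[p]) < 1 / ((k : ℝ) + 1) := fun k =>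
    PadicInt.denseRange_natCast.exists_dist_lt c (by positivity)
  choose u hu using h
  refine ⟨u, ?_⟩
  rw [tendsto_iff_dist_tendsto_zero]
  refine squeeze_zero (fun k => dist_nonneg) (fun k => ?_) tendsto_one_div_add_atTop_nhds_zero_nat
  rw [dist_comm]
  exact (hu k).le

theorem relG_smul (c : ℤ_[p]) {x : ι → G} {a : ι → ℤ_[p]} (ha : RelG p U x a) :
    RelG p U x (c • a) := by
  obtain ⟨m, hm, hm2⟩ := ha
  obtain ⟨u, hu⟩ := exists_nat_tendsto c
  refine ⟨fun k i => u k * m k i, fun i => ?_, fun N => ?_⟩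
  · have := hu.mul (hm i)
    refine this.congr fun k => ?_
    push_cast
    rfl
  · filter_upwards [hm2 N] with k h1
    have e : ∏ i, x i ^ ((u k : ℤ) * m k i) = (∏ i, x i ^ m k i) ^ u k := by
      rw [← Finset.prod_pow]
      refine Finset.prod_congr rfl fun i _ => ?_
      rw [mul_comm, zpow_mul, zpow_natCast]
    rw [e]
    exact (U N).pow_mem h1 _

/-- the module of the relations -/
noncomputable def relM (p : ℕ) [Fact p.Prime] (U : ℕ → Subgroup G) (x : ι → G) :
    Submodule ℤ_[p] (ι → ℤ_[p]) where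
  carrier := {a | RelG p U x a}
  add_mem' := fun ha hb => relG_add ha hb
  zero_mem' := relG_zero x
  smul_mem' := fun c _ ha => relG_smul c ha

theorem relG_reindex {κ : Type*} [Fintype κ] (e : κ ≃ ι) {x : ι → G} {a : ι → ℤ_[p]} (ha : RelG p U x a) :
    RelG p U (x ∘ e) (a ∘ e) := by
  obtain ⟨m, hm, hm2⟩ := ha
  refine ⟨fun k i => m k (e i), fun i => hm (e i), fun N => ?_⟩
  filter_upwards [hm2 N] with k h1
  have : ∏ i, (x ∘ e) i ^ m k (e i) = ∏ i, x i ^ m k i := Equiv.prod_comp e fun i => x i ^ m k i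
  rw [this]
  exact h1

theorem zpow_sum' {G : Type*} [CommGroup G] {κ : Type*} (s : Finset κ) (x : G) (g : κ → ℤ) :
    x ^ (∑ i ∈ s, g i) = ∏ i ∈ s, x ^ g i := by
  classical
  induction s using Finset.induction_on with
  | empty => simp
  | insert a s ha ih => rw [Finset.sum_insert ha, Finset.prod_insert ha, zpow_add, ih]

/-- powers with exponents which tend to `0` -/
theorem zpow_mem_of_tendsto (hp : ∀ N x, x ∈ U N → x ^ p ∈ U (N + 1)) {x : G}
    (hx : x ∈ U 0) {u : ℕ → ℤ} (hu : Tendsto (fun k => ((u k : ℤ) : ℤ_[p])) atTop (𝓝 0)) (N : ℕ) :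
    ∀ᶠ k in atTop, x ^ u k ∈ U N := by
  have h1 : ∀ j, x ^ p ^ j ∈ U j := by
    intro j
    induction j with
    | zero => simpa using hx
    | succ j ih =>
      rw [pow_succ, pow_mul]
      exact hp j _ ih
  have h2 : ∀ᶠ k in atTop, ((p : ℤ) ^ N) ∣ u k := by
    have h3 := (tendsto_iff_norm_sub_tendsto_zero.1 hu).eventually (gt_mem_nhds
      (show (0 : ℝ) < (p : ℝ) ^ (-(N : ℤ)) by
        have := (Fact.out : p.Prime).pos
        positivity))
    filter_upwards [h3] with k hk
    rw [sub_zero] at hk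
    have h4 := PadicInt.norm_int_le_pow_iff_dvd.1 hk.le
    exact_mod_cast h4
  filter_upwards [h2] with k hk
  obtain ⟨c, hc⟩ := hk
  have e : x ^ u k = (x ^ p ^ N) ^ c := by
    rw [hc, zpow_mul]
    congr 1
    exact_mod_cast zpow_natCast x (p ^ N)
  rw [e]
  exact (U N).zpow_mem (h1 N) c

/-- The defect of a group and of its image. -/
theorem core {G' : Type*} [CommGroup G'] {U' : ℕ → Subgroup G'} (f : G →* G')
    (hf : ∀ N x, x ∈ U N → f x ∈ U' N) (hp : ∀ N x, x ∈ U N → x ^ p ∈ U (N + 1))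
    {H : Subgroup G} {n : ℕ} (ε : Fin n → G) (hεH : ∀ i, ε i ∈ H) (hε : ∀ c : Fin n → ℤ, ∏ i, ε i ^ c i = 1 → c = 0)
    (hU : ∀ i, ∃ h : ℕ, 0 < h ∧ ε i ^ h ∈ U 0)
    (hno : ∀ (n' : ℕ) (x : Fin n' → G), (∀ i, x i ∈ H ∧ f (x i) = 1) → (∀ c : Fin n' → ℤ, ∏ i, x i ^ c i = 1 → c = 0) →
      ∀ b : Fin n' → ℤ_[p], b ≠ 0 → ¬ RelG p U x b)
    {t : ℕ} (a : Fin t → Fin n → ℤ_[p]) (hali : LinearIndependent ℤ_[p] a) (harel : ∀ j, RelG p U ε (a j)) :
    ∃ (n' : ℕ) (ν : Fin n' → G'), (∀ i, ν i ∈ H.map f) ∧ (∀ c : Fin n' → ℤ, ∏ i, ν i ^ c i = 1 → c = 0) ∧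
      ∃ b : Fin t → Fin n' → ℤ_[p], LinearIndependent ℤ_[p] b ∧ ∀ j, RelG p U' ν (b j) := by
  classical
  -- a maximal independent subfamily of the images
  obtain ⟨s, hs1, hs2⟩ := exists_maximal_linearIndepOn (R := ℤ) (fun i : Fin n => Additive.ofMul (f (ε i)))
  have hs1' : ∀ c : s → ℤ, ∏ j : s, f (ε j) ^ c j = 1 → c = 0 := by
    intro c hc
    have h1 : LinearIndependent ℤ (fun j : s => Additive.ofMul (f (ε j))) := hs1
    rw [Fintype.linearIndependent_iff] at h1
    funext j
    refine h1 c ?_ j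
    have h2 : Additive.ofMul (∏ j : s, f (ε j) ^ c j) = ∑ j : s, c j • Additive.ofMul (f (ε j)) := by
      rw [ofMul_prod]
      rfl
    rw [← h2, hc]
    rfl
  choose! α hα using hs2
  set A : ℤ := ∏ i : Fin n, if i ∈ s then 1 else α i with hA
  have hA0 : A ≠ 0 := by
    rw [hA, Finset.prod_ne_zero_iff]
    intro i _
    split_ifs with hi
    · exact one_ne_zero
    · exact (hα i hi).1
  have hc : ∀ i : Fin n, ∃ c : s → ℤ, f (ε i) ^ A = ∏ j : s, f (ε j) ^ c j ∧
      ∀ hi : i ∈ s, c = Pi.single ⟨i, hi⟩ A := by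
    intro i
    by_cases hi : i ∈ s
    · refine ⟨Pi.single ⟨i, hi⟩ A, ?_, fun _ => rfl⟩
      rw [Finset.prod_eq_single (⟨i, hi⟩ : s)]
      · rw [Pi.single_eq_same]
      · intro b _ hb
        rw [Pi.single_eq_of_ne hb, zpow_zero]
      · intro h
        exact absurd (Finset.mem_univ _) h
    · have h1 := (hα i hi).2
      rw [Set.image_eq_range, Submodule.mem_span_range_iff_exists_fun] at h1
      obtain ⟨c, hc⟩ := h1
      have h2 : α i ∣ A := by
        have := Finset.dvd_prod_of_mem (fun i : Fin n => if i ∈ s then (1 : ℤ) else α i) (Finset.mem_univ i)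
        simp only [if_neg hi] at this
        exact this
      obtain ⟨β, hβ⟩ := h2
      refine ⟨fun j => c j * β, ?_, fun h => absurd h hi⟩
      have h3 : f (ε i) ^ α i = ∏ j : s, f (ε j) ^ c j := by
        apply Additive.ofMul.injective
        rw [ofMul_prod]
        exact hc.symm
      rw [hβ, zpow_mul, h3, ← Finset.prod_zpow]
      refine Finset.prod_congr rfl fun j _ => ?_
      rw [zpow_mul]
  choose c hc hcs using hc
  -- the linear map
  let Φ : (Fin n → ℤ_[p]) →ₗ[ℤ_[p]] (s → ℤ_[p]) :=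
    { toFun := fun b j => ∑ i, b i * ((c i j : ℤ) : ℤ_[p])
      map_add' := fun a b => by
        funext j
        simp only [Pi.add_apply, add_mul, Finset.sum_add_distrib]
      map_smul' := fun c b => by
        funext j
        simp only [Pi.smul_apply, smul_eq_mul, RingHom.id_apply, Finset.mul_sum, mul_assoc] }
  have hΦ : ∀ b j, Φ b j = ∑ i, b i * ((c i j : ℤ) : ℤ_[p]) := fun _ _ => rfl
  have hΦt : ∀ (m : ℕ → Fin n → ℤ) (b : Fin n → ℤ_[p]),
      (∀ i, Tendsto (fun k => ((m k i : ℤ) : ℤ_[p])) atTop (𝓝 (b i))) →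
      ∀ j, Tendsto (fun k => (((∑ i, m k i * c i j : ℤ)) : ℤ_[p])) atTop (𝓝 (Φ b j)) := by
    intro m b hm j
    rw [hΦ]
    have := tendsto_finsetSum (univ : Finset (Fin n)) fun i _ =>
      (hm i).mul_const ((c i j : ℤ) : ℤ_[p])
    refine this.congr fun k => ?_
    push_cast
    rfl
  -- images of relations
  have himg : ∀ b, RelG p U ε b → RelG p U' (fun j : s => f (ε j)) (Φ b) := by
    rintro b ⟨m, hm, hm2⟩
    refine ⟨fun k j => ∑ i, m k i * c i j, hΦt m b hm, fun N => ?_⟩
    filter_upwards [hm2 N] with k h1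
    have e : ∏ j : s, f (ε j) ^ (∑ i, m k i * c i j) = f (∏ i, ε i ^ m k i) ^ A := by
      calc ∏ j : s, f (ε j) ^ (∑ i, m k i * c i j) = ∏ j : s, ∏ i, (f (ε j) ^ c i j) ^ m k i := by
            refine Finset.prod_congr rfl fun j _ => ?_
            rw [zpow_sum']
            refine Finset.prod_congr rfl fun i _ => ?_
            rw [mul_comm, zpow_mul]
        _ = ∏ i, (∏ j : s, f (ε j) ^ c i j) ^ m k i := by
            rw [Finset.prod_comm]
            refine Finset.prod_congr rfl fun i _ => ?_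
            rw [Finset.prod_zpow]
        _ = ∏ i, (f (ε i) ^ m k i) ^ A := by
            refine Finset.prod_congr rfl fun i _ => ?_
            rw [← hc i, ← zpow_mul, ← zpow_mul, mul_comm]
        _ = f (∏ i, ε i ^ m k i) ^ A := by
            rw [Finset.prod_zpow, map_prod]
            congr 1
            exact Finset.prod_congr rfl fun i _ => (map_zpow f _ _).symm
    rw [e]
    exact (U' N).zpow_mem (hf N _ h1) A
  -- the kernel
  obtain ⟨x, hx⟩ : ∃ x : Fin n → G, ∀ i, x i = ε i ^ A * (∏ j : s, ε j ^ c i j)⁻¹ := ⟨_, fun _ => rfl⟩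
  have hxH : ∀ i, x i ∈ H ∧ f (x i) = 1 := by
    intro i
    rw [hx]
    refine ⟨H.mul_mem (H.zpow_mem (hεH i) _) (H.inv_mem (H.prod_mem fun j _ => H.zpow_mem (hεH j) _)), ?_⟩
    rw [map_mul, map_inv, map_zpow, hc i, map_prod]
    rw [mul_inv_eq_one]
    exact Finset.prod_congr rfl fun j _ => (map_zpow f _ _).symm
  have hxs : ∀ i, i ∈ s → x i = 1 := by
    intro i hi
    rw [hx, mul_inv_eq_one, hcs i hi, Finset.prod_eq_single (⟨i, hi⟩ : s)]
    · rw [Pi.single_eq_same]
    · intro b _ hb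
      rw [Pi.single_eq_of_ne hb, zpow_zero]
    · intro h
      exact absurd (Finset.mem_univ _) h
  have hprod : ∀ m : Fin n → ℤ, ∏ i, x i ^ m i = (∏ i, ε i ^ m i) ^ A * (∏ j : s, ε j ^ (∑ i, m i * c i j))⁻¹ := by
    intro m
    have e1 : ∀ i, x i ^ m i = (ε i ^ m i) ^ A * (∏ j : s, (ε j ^ c i j) ^ m i)⁻¹ := by
      intro i
      rw [hx, mul_zpow, inv_zpow, Finset.prod_zpow, ← zpow_mul, ← zpow_mul, mul_comm A]
    rw [Finset.prod_congr rfl fun i _ => e1 i, Finset.prod_mul_distrib, Finset.prod_zpow, Finset.prod_inv_distrib,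
      Finset.prod_comm]
    congr 2
    refine Finset.prod_congr rfl fun j _ => ?_
    rw [zpow_sum']
    refine Finset.prod_congr rfl fun i _ => ?_
    rw [mul_comm (m i), zpow_mul]
  have hsplit : ∀ m : Fin n → ℤ, ∏ i, x i ^ m i = ∏ i : {i // i ∉ s}, x i ^ m i := by
    intro m
    rw [← Fintype.prod_subtype_mul_prod_subtype (fun i => i ∈ s) (fun i => x i ^ m i)]
    rw [Finset.prod_eq_one, one_mul]
    intro i _
    rw [hxs i i.2, one_zpow]
  have hxind : ∀ d : {i // i ∉ s} → ℤ, ∏ i : {i // i ∉ s}, x i ^ d i = 1 → d = 0 := by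
    intro d hd
    obtain ⟨m, hm⟩ : ∃ m : Fin n → ℤ, ∀ i, m i = if h : i ∈ s then 0 else d ⟨i, h⟩ := ⟨_, fun _ => rfl⟩
    have hmd : ∀ i : {i // i ∉ s}, m i = d i := by
      intro i
      rw [hm, dif_neg i.2]
    have h1 : ∏ i, x i ^ m i = 1 := by
      rw [hsplit, ← hd]
      exact Finset.prod_congr rfl fun i _ => by rw [hmd]
    rw [hprod] at h1
    obtain ⟨D, hD⟩ : ∃ D : Fin n → ℤ, ∀ l, D l = m l * A - (if h : l ∈ s then ∑ i, m i * c i ⟨l, h⟩ else 0) :=
      ⟨_, fun _ => rfl⟩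
    have h2 : ∏ l, ε l ^ D l = 1 := by
      rw [← h1]
      have e1 : ∀ l, ε l ^ D l = (ε l ^ m l) ^ A * (ε l ^ (if h : l ∈ s then ∑ i, m i * c i ⟨l, h⟩ else 0))⁻¹ := by
        intro l
        rw [hD, zpow_sub, zpow_mul]
      rw [Finset.prod_congr rfl fun l _ => e1 l, Finset.prod_mul_distrib, Finset.prod_zpow, Finset.prod_inv_distrib]
      congr 2
      rw [← Fintype.prod_subtype_mul_prod_subtype (fun i => i ∈ s)
        (fun l => ε l ^ (if h : l ∈ s then ∑ i, m i * c i ⟨l, h⟩ else 0))]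
      have e2 : ∏ i : {i // i ∉ s}, ε i ^ (if h : (i : Fin n) ∈ s then ∑ i', m i' * c i' ⟨i, h⟩ else 0) = 1 := by
        refine Finset.prod_eq_one fun i _ => ?_
        rw [dif_neg i.2, zpow_zero]
      rw [e2, mul_one]
      refine Finset.prod_congr rfl fun i _ => ?_
      rw [dif_pos i.2]
    have h3 := hε D h2
    funext i
    have h4 := congrFun h3 i
    rw [hD, dif_neg i.2, sub_zero, hmd] at h4
    exact (mul_eq_zero.1 h4).resolve_right hA0
  obtain ⟨h', hh'0, hh'⟩ : ∃ h' : ℕ, 0 < h' ∧ ∀ i, ε i ^ h' ∈ U 0 := by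
    choose h hh0 hh using hU
    refine ⟨∏ i, h i, Finset.prod_pos fun i _ => hh0 i, fun i => ?_⟩
    obtain ⟨q, hq⟩ := Finset.dvd_prod_of_mem h (Finset.mem_univ i)
    rw [hq, pow_mul]
    exact (U 0).pow_mem (hh i) _
  have hinj : ∀ b, RelG p U ε b → Φ b = 0 → b = 0 := by
    intro b hb hb0
    obtain ⟨m, hm, hm2⟩ := hb
    by_contra hbne
    have hJ : (fun i : {i // i ∉ s} => b i) ≠ 0 := by
      intro h0
      apply hbne
      have hz : ∀ i, i ∉ s → b i = 0 := fun i hi => congrFun h0 ⟨i, hi⟩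
      funext i
      by_cases hi : i ∈ s
      · have h1 := congrFun hb0 ⟨i, hi⟩
        rw [hΦ, Finset.sum_eq_single i] at h1
        · rw [hcs i hi, Pi.single_eq_same] at h1
          refine (mul_eq_zero.1 h1).resolve_right ?_
          exact_mod_cast hA0
        · intro i' _ hne
          by_cases hi' : i' ∈ s
          · rw [hcs i' hi', Pi.single_eq_of_ne, Int.cast_zero, mul_zero]
            intro he
            exact hne (Subtype.mk.inj he).symm
          · rw [hz i' hi', zero_mul]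
        · intro h
          exact absurd (Finset.mem_univ _) h
      · exact hz i hi
    let e := (Fintype.equivFin {i // i ∉ s}).symm
    refine hno _ ((fun i : {i // i ∉ s} => x i) ∘ e) (fun i => hxH _) ?_ (((h' : ℤ_[p]) • fun i : {i // i ∉ s} => b i) ∘ e) ?_ ?_
    · intro d hd
      have h1 : ∏ i : {i // i ∉ s}, x i ^ (d ∘ e.symm) i = 1 := by
        rw [← hd, ← Equiv.prod_comp e]
        refine Finset.prod_congr rfl fun i _ => ?_
        simp only [Function.comp_apply, Equiv.symm_apply_apply]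
      have h2 := hxind _ h1
      funext i
      have h3 := congrFun h2 (e i)
      simpa using h3
    · intro h0
      apply hJ
      funext i
      have h1 := congrFun h0 (e.symm i)
      simp only [Function.comp_apply, Equiv.apply_symm_apply, Pi.smul_apply, smul_eq_mul, Pi.zero_apply] at h1
      refine (mul_eq_zero.1 h1).resolve_left ?_
      exact_mod_cast hh'0.ne'
    · apply relG_reindex
      refine ⟨fun k i => h' * m k i, fun i => ?_, fun N => ?_⟩
      · have h1 := (hm i).const_mul (h' : ℤ_[p])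
        refine h1.congr fun k => ?_
        push_cast
        rfl
      · have h3 : ∀ j : s, ∀ᶠ k in atTop, (ε j ^ h') ^ (∑ i, m k i * c i j) ∈ U N := fun j => by
          refine zpow_mem_of_tendsto hp (hh' j) ?_ N
          have := hΦt m b hm j
          rw [hb0] at this
          exact this
        filter_upwards [hm2 N, Filter.eventually_all.2 h3] with k h1 h4
        have e1 : ∏ i : {i // i ∉ s}, x i ^ ((h' : ℤ) * m k i) =
            ((∏ i, ε i ^ m k i) ^ A) ^ h' * (∏ j : s, (ε j ^ h') ^ (∑ i, m k i * c i j))⁻¹ := by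
          have e2 : ∏ i : {i // i ∉ s}, x i ^ ((h' : ℤ) * m k i) = (∏ i : {i // i ∉ s}, x i ^ m k i) ^ h' := by
            rw [← Finset.prod_pow]
            refine Finset.prod_congr rfl fun i _ => ?_
            rw [mul_comm, zpow_mul, zpow_natCast]
          rw [e2, ← hsplit, hprod, mul_pow, inv_pow, ← Finset.prod_pow]
          congr 2
          refine Finset.prod_congr rfl fun j _ => ?_
          rw [← zpow_natCast, ← zpow_mul, ← zpow_natCast (ε j) h', ← zpow_mul, mul_comm]
        rw [e1]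
        exact (U N).mul_mem ((U N).pow_mem ((U N).zpow_mem h1 A) _)
          ((U N).inv_mem ((U N).prod_mem fun j _ => h4 j))
  -- conclusion
  let e := (Fintype.equivFin s).symm
  refine ⟨_, (fun j : s => f (ε j)) ∘ e, fun i => ⟨_, hεH _, rfl⟩, ?_, fun j => Φ (a j) ∘ e, ?_, ?_⟩
  · intro d hd
    have h1 : ∏ i : s, f (ε i) ^ (d ∘ e.symm) i = 1 := by
      rw [← hd, ← Equiv.prod_comp e]
      refine Finset.prod_congr rfl fun i _ => ?_
      simp only [Function.comp_apply, Equiv.symm_apply_apply]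
    have h2 := hs1' _ h1
    funext i
    have h3 := congrFun h2 (e i)
    simpa using h3
  · have h1 : LinearIndependent ℤ_[p] (Φ ∘ a) := by
      refine hali.map ?_
      rw [Submodule.disjoint_def]
      intro b hb hb2
      have hb' : b ∈ relM p U ε := by
        refine (Submodule.span_le.2 ?_) hb
        rintro _ ⟨j, rfl⟩
        exact harel j
      exact hinj b hb' hb2
    exact h1.map' (LinearMap.funLeft ℤ_[p] ℤ_[p] e) (LinearMap.ker_eq_bot.2 (LinearMap.funLeft_injective_of_surjective _ _ _ e.surjective))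
  · intro j
    exact relG_reindex e (himg _ (harel j))

end A

end Pool.Agent.Q173.LS
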