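import Pool.Agent.Q7.LS.Stm
import Pool.Agent.TeamU.GalAct
import Pool.Agent.Q123.LK.CR1A
import Pool.Agent.Q173.LS.Abs

/-!
Project LS (helper7), job DFN: the defect of a group of elements and of its norm group.
-/

set_option autoImplicit false

namespace Pool.Agent.Q173.LS

open NumberField IsDedekindDomain Filter Topology Finset WithZero
open Pool.Agent.Q7.LK Pool.Agent.Q7.LS
open Pool.Agent.TeamU (act act_one act_mul val_act mem_act)

section B

variable {F : Type} [Field F] [NumberField F] {L : Type} [Field L] [NumberField L] [Algebra F L]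

theorem val_p_lt {p : ℕ} {v : HeightOneSpectrum (𝓞 F)} {P : HeightOneSpectrum (𝓞 L)} (hv : Dp p v) (hP : Ab v P) :
    P.valuation L (p : L) < 1 := by
  have h1 : (p : 𝓞 L) ∈ P.asIdeal := by
    have h2 := hP (Ideal.mem_map_of_mem (algebraMap (𝓞 F) (𝓞 L)) hv)
    rwa [map_natCast] at h2
  have h2 := (P.valuation_lt_one_iff_mem (K := L) (p : 𝓞 L)).2 h1
  simpa using h2

theorem nr_anti {p : ℕ} {T : Set (HeightOneSpectrum (𝓞 F))} (hT : ∀ v ∈ T, Dp p v) {N : ℕ} {x : L}
    (h : Nr p T (N + 1) x) : Nr p T N x := by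
  intro v hv P hP
  refine (h v hv P hP).trans ?_
  rw [pow_succ, map_mul]
  exact mul_le_of_le_one_right' (val_p_lt (hT v hv) hP).le

theorem nr_one_val {p : ℕ} {T : Set (HeightOneSpectrum (𝓞 F))} (hT : ∀ v ∈ T, Dp p v) {N : ℕ} {x : L}
    (h : Nr p T (N + 1) x) {v : HeightOneSpectrum (𝓞 F)} (hv : v ∈ T) {P : HeightOneSpectrum (𝓞 L)} (hP : Ab v P) :
    P.valuation L x = 1 := by
  have h1 : P.valuation L (x - 1) < 1 := by
    refine (h v hv P hP).trans_lt ?_
    rw [map_pow]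
    exact pow_lt_one₀ zero_le (val_p_lt (hT v hv) hP) (Nat.succ_ne_zero N)
  have h2 : x = (x - 1) + 1 := by ring
  rw [h2, Valuation.map_add_eq_of_lt_right, map_one]
  rwa [map_one]

variable (L) in
/-- the elements near `1` -/
def US (p : ℕ) (T : Set (HeightOneSpectrum (𝓞 F))) (hT : ∀ v ∈ T, Dp p v) (N : ℕ) : Subgroup Lˣ where
  carrier := {x | Nr p T (N + 1) (x : L)}
  one_mem' := by
    intro v _ P _
    simp
  mul_mem' := by
    intro x y hx hy v hv P hP
    have e : ((x * y : Lˣ) : L) - 1 = ((x : L) - 1) * y + ((y : L) - 1) := by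
      rw [Units.val_mul]; ring
    rw [e]
    refine (Valuation.map_add _ _ _).trans (max_le ?_ (hy v hv P hP))
    rw [map_mul, nr_one_val hT hy hv hP, mul_one]
    exact hx v hv P hP
  inv_mem' := by
    intro x hx v hv P hP
    have e : ((x⁻¹ : Lˣ) : L) - 1 = -(((x : L) - 1) * (x : L)⁻¹) := by
      rw [Units.val_inv_eq_inv_val]
      have := x.ne_zero
      field_simp
      ring
    rw [e, Valuation.map_neg, map_mul, map_inv₀, nr_one_val hT hx hv hP, inv_one, mul_one]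
    exact hx v hv P hP

theorem mem_US {p : ℕ} {T : Set (HeightOneSpectrum (𝓞 F))} {hT : ∀ v ∈ T, Dp p v} {N : ℕ} {x : Lˣ} :
    x ∈ US L p T hT N ↔ Nr p T (N + 1) (x : L) := Iff.rfl

theorem US_pow {p : ℕ} {T : Set (HeightOneSpectrum (𝓞 F))} {hT : ∀ v ∈ T, Dp p v} (N : ℕ) (x : Lˣ)
    (hx : x ∈ US L p T hT N) : x ^ p ∈ US L p T hT (N + 1) := by
  rw [mem_US] at *
  intro v hv P hP
  have hx1 : P.valuation L (x : L) = 1 := nr_one_val hT hx hv hP
  have h1 : ∀ i : ℕ, P.valuation L ((x : L) ^ i - 1) ≤ P.valuation L ((x : L) - 1) := by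
    intro i
    induction i with
    | zero => simp
    | succ i ih =>
      have e : (x : L) ^ (i + 1) - 1 = ((x : L) ^ i - 1) * x + ((x : L) - 1) := by ring
      rw [e]
      refine (Valuation.map_add _ _ _).trans (max_le ?_ le_rfl)
      rw [map_mul, hx1, mul_one]
      exact ih
  have h2 : ((x ^ p : Lˣ) : L) - 1 = ((x : L) - 1) * ((∑ i ∈ range p, ((x : L) ^ i - 1)) + p) := by
    rw [Units.val_pow_eq_pow_val, Finset.sum_sub_distrib, Finset.sum_const, Finset.card_range, nsmul_one,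
      sub_add_cancel, mul_geom_sum]
  have hxN := hx v hv P hP
  have hpl := val_p_lt (hT v hv) hP
  have h3 : P.valuation L ((x : L) - 1) ≤ P.valuation L (p : L) := by
    refine hxN.trans ?_
    rw [map_pow, pow_succ]
    exact mul_le_of_le_one_left' (pow_le_one₀ zero_le hpl.le)
  have h4 : P.valuation L ((∑ i ∈ range p, ((x : L) ^ i - 1)) + p) ≤ P.valuation L (p : L) := by
    refine (Valuation.map_add _ _ _).trans (max_le ?_ le_rfl)
    exact Valuation.map_sum_le _ fun i _ => (h1 i).trans h3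
  rw [h2, map_mul, map_pow, pow_succ]
  rw [map_pow] at hxN
  exact mul_le_mul' hxN h4

theorem relT_iff {p : ℕ} [Fact p.Prime] {T : Set (HeightOneSpectrum (𝓞 F))} (hT : ∀ v ∈ T, Dp p v) {n : ℕ}
    {x : Fin n → Lˣ} {a : Fin n → ℤ_[p]} : RelT p T x a ↔ RelG p (US L p T hT) x a := by
  constructor
  · rintro ⟨m, hm, hm2⟩
    exact ⟨m, hm, fun N => hm2 (N + 1)⟩
  · rintro ⟨m, hm, hm2⟩
    refine ⟨m, hm, fun N => ?_⟩
    filter_upwards [hm2 N] with k hk
    exact nr_anti hT hk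

/-- a power of a local unit is near `1` -/
theorem exists_pow_near (P : HeightOneSpectrum (𝓞 L)) {x : L} (hx : P.valuation L x = 1) (e : ℕ) :
    ∃ h : ℕ, 0 < h ∧ P.valuation L (x ^ h - 1) ≤ exp (-(e : ℤ)) := by
  obtain ⟨a, ha⟩ := P.exists_valuation_sub_lt_of_integer hx.le (Units.mk0 (exp (-(e : ℤ))) exp_ne_zero)
  have ha' : P.valuation L (algebraMap (𝓞 L) L a - x) < exp (-(e : ℤ)) := ha
  have he1 : exp (-(e : ℤ)) ≤ (1 : ℤᵐ⁰) := by
    rw [← exp_zero, exp_le_exp]
    omega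
  have ha1 : P.valuation L (algebraMap (𝓞 L) L a) = 1 := by
    have e1 : algebraMap (𝓞 L) L a = (algebraMap (𝓞 L) L a - x) + x := by ring
    rw [e1, Valuation.map_add_eq_of_lt_right, hx]
    rw [hx]
    exact ha'.trans_le he1
  have hfin : Finite (𝓞 L ⧸ P.asIdeal ^ e) := by
    apply Ideal.finiteQuotientOfFreeOfNeBot
    exact pow_ne_zero _ P.ne_bot
  obtain ⟨i, j, hij, hq⟩ := Finite.exists_ne_map_eq_of_infinite
    (fun i : ℕ => Ideal.Quotient.mk (P.asIdeal ^ e) (a ^ i))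
  wlog hlt : i < j generalizing i j
  · exact this j i hij.symm hq.symm (by omega)
  have h1 : a ^ j - a ^ i ∈ P.asIdeal ^ e := Ideal.Quotient.eq.1 hq.symm
  have h2 : P.valuation L (algebraMap (𝓞 L) L (a ^ j - a ^ i)) ≤ exp (-(e : ℤ)) := by
    rw [HeightOneSpectrum.valuation_of_algebraMap]
    exact (P.intValuation_le_pow_iff_mem _ _).2 h1
  have h3 : algebraMap (𝓞 L) L (a ^ j - a ^ i) = algebraMap (𝓞 L) L a ^ i * (algebraMap (𝓞 L) L a ^ (j - i) - 1) := by
    rw [map_sub, map_pow, map_pow, mul_sub, mul_one, ← pow_add]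
    congr 2
    omega
  rw [h3, map_mul, map_pow, ha1, one_pow, one_mul] at h2
  refine ⟨j - i, by omega, ?_⟩
  have h4 : ∀ n : ℕ, P.valuation L (x ^ n - algebraMap (𝓞 L) L a ^ n) ≤ exp (-(e : ℤ)) := by
    intro n
    induction n with
    | zero => simp
    | succ n ih =>
      have e1 : x ^ (n + 1) - algebraMap (𝓞 L) L a ^ (n + 1) = (x ^ n - algebraMap (𝓞 L) L a ^ n) * x -
          algebraMap (𝓞 L) L a ^ n * (algebraMap (𝓞 L) L a - x) := by ring
      rw [e1]
      refine (Valuation.map_sub _ _ _).trans (max_le ?_ ?_)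
      · rw [map_mul, hx, mul_one]
        exact ih
      · rw [map_mul, map_pow, ha1, one_pow, one_mul]
        exact ha'.le
  have e1 : x ^ (j - i) - 1 = (x ^ (j - i) - algebraMap (𝓞 L) L a ^ (j - i)) + (algebraMap (𝓞 L) L a ^ (j - i) - 1) := by
    ring
  rw [e1]
  exact (Valuation.map_add _ _ _).trans (max_le (h4 _) h2)

theorem pow_sub_le {P : HeightOneSpectrum (𝓞 L)} {x : L} (hx : P.valuation L x = 1) (i : ℕ) :
    P.valuation L (x ^ i - 1) ≤ P.valuation L (x - 1) := by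
  induction i with
  | zero => simp
  | succ i ih =>
    have e : (x : L) ^ (i + 1) - 1 = ((x : L) ^ i - 1) * x + ((x : L) - 1) := by ring
    rw [e]
    refine (Valuation.map_add _ _ _).trans (max_le ?_ le_rfl)
    rw [map_mul, hx, mul_one]
    exact ih

theorem exists_pow_US {p : ℕ} [hp : Fact p.Prime] {T : Set (HeightOneSpectrum (𝓞 F))} (hT : ∀ v ∈ T, Dp p v) (x : Lˣ)
    (hx : ∀ v ∈ T, Un v (x : L)) : ∃ h : ℕ, 0 < h ∧ x ^ h ∈ US L p T hT 0 := by
  classical
  have hfin : {P : HeightOneSpectrum (𝓞 L) | P.asIdeal ∣ Ideal.span {(p : 𝓞 L)}}.Finite := by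
    apply Ideal.finite_factors
    rw [Ne, Ideal.zero_eq_bot, Ideal.span_singleton_eq_bot]
    exact_mod_cast hp.out.ne_zero
  have h1 : ∀ P : HeightOneSpectrum (𝓞 L), ∃ h : ℕ, 0 < h ∧ (P.valuation L (x : L) = 1 →
      P.valuation L ((x : L) ^ h - 1) ≤ P.valuation L (p : L)) := by
    intro P
    by_cases hP : P.valuation L (x : L) = 1
    · have hp0 : P.valuation L (p : L) ≠ 0 := by
        rw [Valuation.ne_zero_iff]
        exact_mod_cast hp.out.ne_zero
      obtain ⟨h, hh, h2⟩ := exists_pow_near P hP (-(WithZero.log (P.valuation L (p : L)))).toNat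
      refine ⟨h, hh, fun _ => h2.trans ?_⟩
      rw [← exp_log hp0, exp_le_exp, log_exp]
      have := Int.self_le_toNat (-(WithZero.log (P.valuation L (p : L))))
      omega
    · exact ⟨1, one_pos, fun h => absurd h hP⟩
  choose h hh0 hh using h1
  refine ⟨∏ P ∈ hfin.toFinset, h P, Finset.prod_pos fun P _ => hh0 P, ?_⟩
  rw [mem_US]
  intro v hv P hP
  have hPx : P.valuation L (x : L) = 1 := hx v hv P hP
  have hmem : P ∈ hfin.toFinset := by
    rw [Set.Finite.mem_toFinset]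
    show P.asIdeal ∣ Ideal.span {(p : 𝓞 L)}
    rw [Ideal.dvd_span_singleton]
    have h2 := hP (Ideal.mem_map_of_mem (algebraMap (𝓞 F) (𝓞 L)) (hT v hv))
    rwa [map_natCast] at h2
  obtain ⟨q, hq⟩ := Finset.dvd_prod_of_mem h hmem
  rw [Units.val_pow_eq_pow_val, hq, pow_mul, zero_add, pow_one]
  exact (pow_sub_le (by rw [map_pow, hPx, one_pow]) q).trans (hh P hPx)

end B

section C

variable {F : Type} [Field F] [NumberField F] {L : Type} [Field L] [NumberField L] [Algebra F L]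

theorem ab_act (σ : L ≃ₐ[F] L) {v : HeightOneSpectrum (𝓞 F)} {P : HeightOneSpectrum (𝓞 L)} (h : Ab v P) :
    Ab v (act σ P) := by
  unfold Pool.Agent.Q7.LS.Ab at *
  rw [Ideal.map_le_iff_le_comap] at *
  intro y hy
  rw [Ideal.mem_comap, mem_act]
  have e : (RingOfIntegers.mapRingEquiv σ.toRingEquiv).symm (algebraMap (𝓞 F) (𝓞 L) y) =
      algebraMap (𝓞 F) (𝓞 L) y := by
    apply RingOfIntegers.ext
    exact σ.symm.commutes (y : F)
  rw [e]
  exact h hy

theorem nr_conj (τ : L ≃ₐ[F] L) {p : ℕ} {T : Set (HeightOneSpectrum (𝓞 F))} {N : ℕ} {x : L} (h : Nr p T N x) :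
    Nr p T N (τ x) := by
  intro v hv P hP
  have e : act τ (act τ⁻¹ P) = P := by
    rw [← act_mul, mul_inv_cancel, act_one]
  have h1 := h v hv (act τ⁻¹ P) (ab_act τ⁻¹ hP)
  have h2 := val_act τ (act τ⁻¹ P) (x - 1)
  have h3 := val_act τ (act τ⁻¹ P) ((p : L) ^ N)
  rw [e] at h2 h3
  rw [map_pow τ, map_natCast] at h3
  rw [map_sub τ, map_one] at h2
  rw [h2, h3]
  exact h1

theorem exists_above (v : HeightOneSpectrum (𝓞 F)) : ∃ P : HeightOneSpectrum (𝓞 L), P.asIdeal.LiesOver v.asIdeal := by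
  have := v.isMaximal
  obtain ⟨Q, hQ, hQ2⟩ := Ideal.exists_ideal_over_maximal_of_isIntegral (S := 𝓞 L) v.asIdeal
    (by
      rw [(RingHom.injective_iff_ker_eq_bot _).1 (FaithfulSMul.algebraMap_injective (𝓞 F) (𝓞 L))]
      exact bot_le)
  have hl : Q.LiesOver v.asIdeal := ⟨hQ2.symm⟩
  refine ⟨⟨Q, hQ.isPrime, ?_⟩, hl⟩
  exact Ideal.ne_bot_of_liesOver_of_ne_bot v.ne_bot Q

theorem nr_norm [IsGalois F L] {p : ℕ} {T : Set (HeightOneSpectrum (𝓞 F))} {hT : ∀ v ∈ T, Dp p v} {N : ℕ} {x : Lˣ}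
    (h : x ∈ US L p T hT N) : nmU F x ∈ US F p T hT N := by
  have h1 : (∏ τ : L ≃ₐ[F] L, Units.map (τ : L →* L) x) ∈ US L p T hT N :=
    Subgroup.prod_mem _ fun τ _ => nr_conj τ h
  rw [mem_US] at h1 ⊢
  intro v hv w hw
  have hvw : v = w := by
    have hw' : v.asIdeal ≤ w.asIdeal := by
      intro y hy
      have h9 := hw (Ideal.mem_map_of_mem _ hy)
      exact (congrArg (· ∈ w.asIdeal) (RingOfIntegers.ext rfl : _ = y)).mp h9
    exact HeightOneSpectrum.ext (v.isMaximal.eq_of_le w.isMaximal.ne_top hw')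
  subst hvw
  obtain ⟨P, hP⟩ := exists_above (L := L) v
  have hab : Ab v P := by
    unfold Pool.Agent.Q7.LS.Ab
    rw [Ideal.map_le_iff_le_comap]
    exact hP.over.le
  have h2 := h1 v hv P hab
  have e1 : ((∏ τ : L ≃ₐ[F] L, Units.map (τ : L →* L) x : Lˣ) : L) = algebraMap F L ((nmU F x : Fˣ) : F) := by
    rw [Units.coe_prod]
    exact (Algebra.norm_eq_prod_automorphisms F (x : L)).symm
  rw [e1] at h2
  have e2 : algebraMap F L ((nmU F x : Fˣ) : F) - 1 = algebraMap F L (((nmU F x : Fˣ) : F) - 1) := by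
    rw [map_sub, map_one]
  have e3 : ((p : L) ^ (N + 1)) = algebraMap F L ((p : F) ^ (N + 1)) := by
    rw [map_pow, map_natCast]
  rw [e2, e3, ← HeightOneSpectrum.valuation_liesOver L v P, ← HeightOneSpectrum.valuation_liesOver L v P] at h2
  exact (pow_le_pow_iff_left₀ zero_le zero_le (Ideal.IsDedekindDomain.ramificationIdx'_ne_zero_of_liesOver P.asIdeal v.ne_bot)).1 h2

/-- **JOB DFN** -/
theorem dfn : S_DFN := by
  intro p _ _ F L _ _ _ _ _ ζ d hζ hK hd T hT H hH hno t hdef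
  have hgal : IsGalois F L := Pool.Agent.Q123.LK.isGalois_kum hζ hK hd
  obtain ⟨n, ε, hεH, hε, a, ha, hrel⟩ := hdef
  obtain ⟨n', ν, h1, h2, b, h3, h4⟩ := core (U := US L p T hT) (U' := US F p T hT) (nmU F) (fun N x hx => nr_norm hx)
    (fun N x hx => US_pow N x hx) ε hεH hε (fun i => exists_pow_US hT (ε i) (hH _ (hεH i)))
    (by
      intro n' x hx hind b hb hrel
      apply hno
      refine ⟨n', x, fun i => ⟨(hx i).1, (hx i).2⟩, hind, fun _ => b, ?_, fun _ => (relT_iff hT).2 hrel⟩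
      rw [Fintype.linearIndependent_iff]
      intro g hg i
      rw [Fin.sum_univ_one] at hg
      rw [Fin.fin_one_eq_zero i]
      exact (smul_eq_zero.1 hg).resolve_right hb)
    a ha (fun j => (relT_iff hT).1 (hrel j))
  exact ⟨n', ν, h1, h2, b, h3, fun j => (relT_iff hT).2 (h4 j)⟩

end C

end Pool.Agent.Q173.LS
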